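import Pool.Agent.H84.DPC.Stmts
import Pool.Agent.H95.S6.Rte
import Pool.Agent.H23.S6E.Ld2
import Pool.Agent.H33.S6.Zof

/-!
# The double plateau: the block of the position is not full

The boxes of all windows are natural boxes of the window `u₀` of the frame, since `rot` and
`th - w` are constant.
-/

set_option autoImplicit false

namespace Pool.S6C

open Finset Real
open Pool.Agent.H49.Ent Pool.Agent.H32.Dense Pool.STK Pool.KA Pool.KSAT Pool.K2S Pool.PB Pool.KS6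
  Pool.Sel51 Pool.KA.Vd

variable {S : PCl 3} {a R h₁ : ℝ} {i₀ : Fin 3} {c s₂ : ℝ} {r : ℝ → ℝ} {D : Set ℝ} {σ : ℝ → Row}
  {act : ℚ → ℝ} {K : Set ℝ} {W : ℝ → ℝ} {v₁ t : ℚ} {e₁ Q₀ P g v₀ a₀ α : ℝ}

/-- The row, from the rate of the positions and the deficit. -/
theorem row_of {J : ℕ} {F : Fam 3 J} {A B : F.Ω → Prop} {sg : Fin 3 → Fin 3} {a' s' t' : F.Ω → ℝ}
    (hB : Sub B A) (hB0 : 0 < Pe F.p B) (hsg : Function.Bijective sg)
    (hbd : ∀ ω, A ω → |a' ω| ≤ 8 ∧ |s' ω| ≤ 8 ∧ |t' ω| ≤ 8) {z X V H : ℕ} {c y₁ y₂ δ : ℝ}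
    (k1 : F.vdf (Pool.Agent.H49.Ent.cond F.p B True) sg (z + X) (z + V + X) (z + V + H + X) a' s' t'
      F.W ≤ y₁)
    (k2 : CH (Pool.Agent.H49.Ent.cond F.p B True) (F.X (z + V + H + X))
      (fun ω => (F.X (z + V + H) ω, F.W ω)) ≤ (3 - c) * X * Real.log 2 + y₂)
    (hy : y₁ + y₂ + (K1 8 + K2 8) ≤ δ * X) :
    CH (Pool.Agent.H49.Ent.cond F.p B True)
      (F.sbx sg (z + X) (z + V + X) (z + V + H + X) a' s' t')
      (fun ω => (F.sbx sg z (z + V) (z + V + H) a' s' t' ω, F.W ω)) ≤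
      (3 - c) * X * Real.log 2 + δ * X := by
  have k3 := block_le (σ := sg) (a := a') (s := s') (t := t') (F := F) (isLaw_cond F.isLaw hB0) hsg
    (r := z) (U := z + V) (P := z + V + H) (r' := z + X) (U' := z + V + X)
    (P' := z + V + H + X) (B := 8) (by norm_num) (by omega) (by omega) (by omega) (by omega)
    (by omega) (by omega) (by omega) (fun ω hω => hbd ω (hB ω (ldm_mem hω))) F.W
  have e2 : ((((z + X : ℕ) : ℝ) - z) + (((z + V + X : ℕ) : ℝ) - ((z + V : ℕ) : ℝ)) -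
      2 * (((z + V + H + X : ℕ) : ℝ) - ((z + V + H : ℕ) : ℝ))) * Real.log 2 = 0 := by
    push_cast
    ring
  rw [e2] at k3
  linarith only [k1, k2, hy, k3]

/-- **The block of the position is not full**, on large events. -/
theorem dfc_of (hLD : LDOneStmt) (hC : Cs S a R h₁ i₀ c s₂ r D σ)
    (hL : Loc S i₀ c s₂ r D σ act K W v₁ t e₁ Q₀ P g v₀ 0 0 a₀ α) {ϖ ε δ : ℝ}
    (hϖ : 0 < ϖ) (hε : 0 < ε) (hδ : 0 < δ) : ∃ L₀ : ℝ, 0 < L₀ ∧
      ∀ (rc : ℚ → ℝ) (pe x L e G : ℝ), L ≤ L₀ → ε * L ≤ x →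
      Zod σ act rc v₁ t e₁ P g (W g) v₀ a₀ α pe L e G → ∀ u₀ : ℚ, W g - L / 4 ≤ u₀ →
      (u₀ : ℝ) ≤ W g → ∃ η₀ : ℝ, 0 < η₀ ∧ ∀ η : ℝ, 0 < η → η ≤ η₀ → ∀ N M : ℕ,
    Clp S (fun J F A => ∀ w₀ q V H X : ℕ, DLv J N M P g (W g) v₀ x L e u₀ w₀ q V H X →
      ∀ sg : Fin 3 → Fin 3, Function.Bijective sg → sg 0 = i₀ →
      ∀ (a s t : F.Ω → ℝ), (∀ ω, A ω → |a ω| ≤ 8 ∧ |s ω| ≤ 8 ∧ |t ω| ≤ 8) →
      ((∃ (z : F.Ω → Pln) (E : ℝ),
        NL F A sg ⌊(u₀ : ℝ) * J⌋₊ ⌊((σ 1).rot u₀ - η) * J⌋₊ ⌊((σ 1).th u₀ - η) * J⌋₊ z ∧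
        (∀ ω ω', A ω → A ω' → z ω = z ω' → a ω = a ω' ∧ s ω = s ω' ∧ t ω = t ω') ∧
        (∀ ω, A ω → |a ω| ≤ 8 ∧ |s ω| ≤ 8 ∧ |t ω| ≤ 8) ∧ 1 ≤ E ∧ Real.log E ≤ η * J ∧
        Fcl F A u₀ ((u₀ : ℝ) + (σ 1).rot u₀) ((σ 1).th u₀) E z a s t) ∨ (V = 0 ∧ H = 0)) →
      ∀ j < N, ∀ k < M, ∀ B : F.Ω → Prop, Sub B A → ϖ * Pe F.p A ≤ Pe F.p B →
      CH (Pool.Agent.H49.Ent.cond F.p B True)
        (F.sbx sg (w₀ + j * X + q + k * X + X) (w₀ + j * X + q + V + k * X + X)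
          (w₀ + j * X + q + V + H + k * X + X) a s t)
        (fun ω => (F.sbx sg (w₀ + j * X + q + k * X) (w₀ + j * X + q + V + k * X)
          (w₀ + j * X + q + V + H + k * X) a s t ω, F.W ω)) ≤
        (3 - c) * X * Real.log 2 + δ * X) := by
  have hR := hC.row 1 one_pos le_rfl hC.D1
  have hP0 : 0 < P := by
    have h1 := hL.gP
    have h2 := (hL.pr g hL.thk).half
    linarith only [h1, h2]
  have hP1 : P < 1 := (hL.pr P hL.row).lt1
  obtain ⟨κ, hκ⟩ : ∃ κ, κ = δ * ε / 32 := ⟨_, rfl⟩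
  have hκ0 : 0 < κ := by rw [hκ]; positivity
  obtain ⟨ε₀, X₀, hε₀, hX₀, hld⟩ :=
    hLD S a R h₁ i₀ c s₂ r D σ hC act K W v₁ t e₁ Q₀ P g v₀ 0 0 a₀ α hL κ hκ0
  obtain ⟨X₁, hX₁, hrt⟩ := rte hC hP0 hP1 hL.rate hϖ hκ0
  refine ⟨min X₀ X₁ / 4, div_pos (lt_min hX₀ hX₁) (by norm_num), ?_⟩
  intro rc pe x L e G hLL hxL hZ u₀ hul hur
  have he0 := hZ.e0
  have heL := hZ.eL
  have hL0 : 0 < L := by linarith only [he0, heL]
  have hx : 0 < x := lt_of_lt_of_le (mul_pos hε hL0) hxL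
  obtain ⟨Y, hY⟩ : ∃ Y, Y = 4 * L := ⟨_, rfl⟩
  have hY0 : 0 < Y := by rw [hY]; linarith only [he0, heL]
  have hYC : Y ≤ min X₀ X₁ := by
    rw [hY]
    linarith only [hLL]
  have hYX₀ : Y ≤ X₀ := hYC.trans (min_le_left _ _)
  have hYX₁ : Y ≤ X₁ := hYC.trans (min_le_right _ _)
  have hu₀Y : |(u₀ : ℝ) - W g| ≤ Y := by
    rw [hY, abs_le]
    constructor <;> linarith
  refine ⟨ε₀ * Y, by positivity, fun η hη hηη N M => ?_⟩
  obtain ⟨J₁, hJ₁⟩ := exists_nat_gt (4 * (K1 8 + K2 8) / (δ * x))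
  refine Clp.mono (J₂ := max J₁ 1) ((((hld Y hY0 hYX₀ u₀ hu₀Y).ev hϖ).and
    (hrt Y hY0 hYX₁)).and hC.pos) ?_
  rintro J hJ F A ⟨⟨h1, h2⟩, hA0⟩ w₀ q V H X hD sg hsg h0 a' s' t' hbd hor j hj k hk B hB hPB
  have hJ1 : 1 ≤ J := (le_max_right _ _).trans hJ
  have hJr : (0 : ℝ) < J := by exact_mod_cast hJ1
  have hJ' : 4 * (K1 8 + K2 8) / (δ * x) < J :=
    hJ₁.trans_le (by exact_mod_cast (le_max_left _ _).trans hJ)
  rw [div_lt_iff₀ (by positivity)] at hJ'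
  have hB0 : 0 < Pe F.p B := lt_of_lt_of_le (mul_pos hϖ hA0) hPB
  -- the numbers at `u₀`
  obtain ⟨n1, n2, -⟩ := hZ.aff u₀ (by
    rw [abs_le]
    constructor <;> linarith)
  rw [abs_le] at n1 n2
  have hg7 := hZ.g7
  have hg8 := hZ.g8
  have hLG := hZ.LG
  have hW0 := hZ.g9
  have hu0 : (0 : ℝ) ≤ u₀ := by linarith only [hul, he0, heL, hLG, hW0]
  have hu0' : (0 : ℚ) ≤ u₀ := by exact_mod_cast hu0
  have hu1 : (u₀ : ℝ) ≤ 1 := by
    have := hL.W1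
    linarith only [hur, this]
  have hu1' : u₀ ≤ 1 := by exact_mod_cast hu1
  have hrot0 : 0 ≤ (σ 1).rot u₀ := num_nonneg hC.ne (hR.rot u₀ hu0' hu1')
  have htrv : (u₀ : ℝ) + (σ 1).rot u₀ ≤ (σ 1).th u₀ := by
    rcases min_le_iff.1 (trv hC le_rfl hR u₀ hu0' hu1) with h | h
    · exact h
    · linarith only [hur, he0, heL, n2, hg7, hg8, hLG, h]
  -- the levels
  have hX := hD.xX
  have hwl := hD.uw
  have hwu := hD.wu
  have hql := hD.ql
  have hqu := hD.qu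
  have hva := hD.vu
  have hva' := hD.vl
  have hha := hD.hu
  have hXr : (0 : ℝ) ≤ X := Nat.cast_nonneg X
  have hjX : ((j : ℝ)) * X ≤ N * X := mul_le_mul_of_nonneg_right (by exact_mod_cast hj.le) hXr
  have hkX : ((k : ℝ)) * X ≤ M * X := mul_le_mul_of_nonneg_right (by exact_mod_cast hk.le) hXr
  have hjX0 : 0 ≤ ((j : ℝ)) * X := by positivity
  have hkX0 : 0 ≤ ((k : ℝ)) * X := by positivity
  have heJ : 0 < e * (J : ℝ) := by positivity
  have heJL : 100 * (e * J) ≤ L * J := by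
    have := mul_le_mul_of_nonneg_right heL hJr.le
    linarith only [this]
  push_cast at hwu hqu
  have hJL : 0 ≤ L * (J : ℝ) := by positivity
  have hHr : (0 : ℝ) ≤ H := Nat.cast_nonneg H
  have hVr : (0 : ℝ) ≤ V := Nat.cast_nonneg V
  obtain ⟨z₀, hz₀⟩ : ∃ z₀ : ℕ, z₀ = w₀ + j * X + q + k * X := ⟨_, rfl⟩
  have hz₀r : (z₀ : ℝ) = w₀ + j * X + q + k * X := by
    rw [hz₀]
    push_cast
    ring
  have z1 : w₀ + j * X + q + k * X + X = z₀ + X := by rw [hz₀]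
  have z2 : w₀ + j * X + q + V + k * X + X = z₀ + V + X := by rw [hz₀]; ring
  have z3 : w₀ + j * X + q + V + H + k * X + X = z₀ + V + H + X := by rw [hz₀]; ring
  have z4 : w₀ + j * X + q + V + k * X = z₀ + V := by rw [hz₀]; ring
  have z5 : w₀ + j * X + q + V + H + k * X = z₀ + V + H := by rw [hz₀]; ring
  rw [z1, z2, z3, z4, z5, ← hz₀]
  -- the levels of the precision
  have hulJ : W g * J - L / 4 * J ≤ u₀ * J := by
    have := mul_le_mul_of_nonneg_right hul hJr.le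
    linarith only [this]
  have hurJ : u₀ * J ≤ W g * J := mul_le_mul_of_nonneg_right hur hJr.le
  have hvW : v₀ * (J : ℝ) ≤ (g - W g) * J := mul_le_mul_of_nonneg_right hZ.vR hJr.le
  have hv0J : 0 ≤ v₀ * (J : ℝ) := mul_nonneg hZ.v0 hJr.le
  have hVH : (V : ℝ) + H ≤ (g - W g) * J := by
    rcases le_max_iff.1 hva with a | a <;> rcases le_max_iff.1 hha with b | b <;> linarith
  have hVH' : (g - W g) * J - 22 * (e * J) ≤ (V : ℝ) + H := by
    have := hD.hl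
    linarith only [hva', this]
  -- the positions
  have k2 := h2 B hB hPB (z₀ + V + H) (z₀ + V + H + X)
    (by omega) (by
      rw [abs_le, hY]
      push_cast
      rw [hz₀r]
      constructor <;> linarith) (by
      rw [abs_le, hY]
      push_cast
      rw [hz₀r]
      constructor <;> linarith)
  have e3 : (3 - c) * (((z₀ + V + H + X : ℕ) : ℝ) - ((z₀ + V + H : ℕ) : ℝ)) *
      Real.log 2 = (3 - c) * X * Real.log 2 := by
    push_cast
    ring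
  rw [e3] at k2
  -- the constants
  have e4 : κ * Y * J ≤ δ / 8 * X := by
    have m1 : κ * Y * J = δ / 8 * (ε * L * J) := by
      rw [hκ, hY]
      ring
    have m2 : ε * L * J ≤ x * J := mul_le_mul_of_nonneg_right hxL hJr.le
    rw [m1]
    exact mul_le_mul_of_nonneg_left (m2.trans hX) (by positivity)
  have e5 : K1 8 + K2 8 ≤ δ / 4 * X := by
    have m1 : δ / 4 * (x * J) ≤ δ / 4 * X := mul_le_mul_of_nonneg_left hX (by positivity)
    linarith only [hJ', m1]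
  have e6 : 0 ≤ δ * (X : ℝ) := by positivity
  -- the deficit
  refine row_of hB hB0 hsg hbd (y₁ := κ * Y * J) ?_ k2 (by linarith only [e4, e5, e6])
  rcases hor with ⟨z, E, hNL, hfz, -, hE1, hE2, hcl⟩ | ⟨hV0, hH0⟩
  swap
  · refine (vdf_le (isLaw_cond F.isLaw hB0) F.W).trans ?_
    rw [hV0, hH0]
    have m1 : (((z₀ + 0 + 0 + X : ℕ) : ℝ) - ((z₀ + X : ℕ) : ℝ) +
        (((z₀ + 0 + 0 + X : ℕ) : ℝ) - ((z₀ + 0 + X : ℕ) : ℝ))) * Real.log 2 = 0 := by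
      push_cast
      ring
    rw [m1]
    positivity
  obtain ⟨μ, hμ⟩ : ∃ μ, μ = (σ 1).rot u₀ - V / J := ⟨_, rfl⟩
  have hμJ : μ * J = (σ 1).rot u₀ * J - V := by
    rw [hμ]
    field_simp
  have n1l : v₀ * J - e * J ≤ (σ 1).rot u₀ * J := by
    have := mul_le_mul_of_nonneg_right (show v₀ - e ≤ (σ 1).rot u₀ by linarith only [n1, n1.1]) hJr.le
    linarith only [this]
  have n1r : (σ 1).rot u₀ * J ≤ v₀ * J + e * J := by
    have := mul_le_mul_of_nonneg_right (show (σ 1).rot u₀ ≤ v₀ + e by linarith only [n1, n1.2]) hJr.le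
    linarith only [this]
  have hrotJ : 0 ≤ (σ 1).rot u₀ * J := by positivity
  have hμ0 : 0 ≤ μ * J := by
    rw [hμJ]
    rcases le_max_iff.1 hva with h | h <;> linarith
  have hμ1 : μ * J ≤ 12 * (e * J) := by
    rw [hμJ]
    linarith only [hva', n1r]
  have hRR : (V : ℝ) + H ≤ (σ 1).th u₀ * J - u₀ * J - μ * J := by
    rw [hμJ]
    have m1 : (u₀ : ℝ) * J + (σ 1).rot u₀ * J ≤ (σ 1).th u₀ * J := by
      have := mul_le_mul_of_nonneg_right htrv hJr.le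
      linarith only [this]
    have m2 : (g - W g - e) * J ≤ (σ 1).th u₀ * J - u₀ * J := by
      have := mul_le_mul_of_nonneg_right
        (show g - W g - e ≤ (σ 1).th u₀ - u₀ by linarith only [n2, n2.1]) hJr.le
      linarith only [this]
    rcases le_max_iff.1 hha with h | h
    · linarith only [m1, h]
    · linarith only [heJ, n1r, m2, h]
  obtain ⟨q', hq'⟩ : ∃ q' : ℝ, q' = ((z₀ + X : ℕ) : ℝ) / J - u₀ - μ := ⟨_, rfl⟩
  have hq'J : q' * J = z₀ + X - u₀ * J - μ * J := by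
    rw [hq']
    push_cast
    field_simp
  exact h1 B hB hPB sg hsg h0 z
    ((show NL F B sg ⌊(u₀ : ℝ) * J⌋₊ ⌊((σ 1).rot u₀ - η) * J⌋₊ ⌊((σ 1).th u₀ - η) * J⌋₊ z from
      ⟨fun ω hω => hNL.inc ω (hB ω hω), fun ω ω' x y => hNL.vis ω ω' (hB ω x) (hB ω' y),
        fun ω ω' x y => hNL.con ω ω' (hB ω x) (hB ω' y)⟩).mono
      (Nat.floor_le_floor (mul_le_mul_of_nonneg_right (by linarith only [hηη]) hJr.le))
      (Nat.floor_le_floor (mul_le_mul_of_nonneg_right (by linarith only [hηη]) hJr.le)))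
    a' s' t' E (fun ω ω' x y => hfz ω ω' (hB ω x) (hB ω' y)) (fun ω x => hbd ω (hB ω x)) hE1
    (hE2.trans (mul_le_mul_of_nonneg_right hηη hJr.le)) (fun ω x => hcl ω (hB ω x)) (z₀ + X)
    (z₀ + V + X) (z₀ + V + H + X) q' (by
      rw [abs_le]
      constructor
      · refine le_of_mul_le_mul_right ?_ hJr
        have e1 : (q' - (P - g)) * J = q' * J - (P - g) * J := by ring
        rw [e1, hq'J, hz₀r, hY]
        linarith only [hwl, hql, hva', hjX0, hkX0, heJ, heJL, hμJ, n1r]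
      · refine le_of_mul_le_mul_right ?_ hJr
        have e1 : (q' - (P - g)) * J = q' * J - (P - g) * J := by ring
        rw [e1, hq'J, hz₀r, hY]
        linarith only [hjX, hkX, heJ, heJL, hwu, hqu, hulJ, hμ0]) (by
      have e1 : ((u₀ : ℝ) + q') * J = u₀ * J + q' * J := by ring
      rw [e1, hq'J]
      push_cast
      linarith only [hμ0]) (by
      have e1 : ((u₀ : ℝ) + (σ 1).rot u₀ + q') * J = u₀ * J + (σ 1).rot u₀ * J + q' * J := by ring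
      rw [e1, hq'J, hμJ]
      push_cast
      linarith only) (by
      have e1 : ((σ 1).th u₀ + q') * J = (σ 1).th u₀ * J + q' * J := by ring
      rw [e1, hq'J]
      push_cast
      linarith only [hRR]) (by omega) (by omega)

end Pool.S6C
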