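import Pool.Agent.H35.DPC.Lev
import Pool.Agent.H95.S6.Rte
import Pool.Agent.H23.S6E.Ld2

/-!
# The double plateau: the block of the position is not full

The boxes of all windows are natural boxes of the window `u₀` of the frame, since `rot` and
`th - w` are constant.
-/

set_option autoImplicit false

namespace Pool.S6C

open Finset Real
open Pool.Agent.H49.Ent Pool.Agent.H32.Dense Pool.STK Pool.KA Pool.KSAT Pool.K2S Pool.PB Pool.KS6
  Pool.Sel51 Pool.KA.Vd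

variable {S : PCl 3} {a R h₁ : ℝ} {i₀ : Fin 3} {c s₂ : ℝ} {r : ℝ → ℝ} {D : Set ℝ} {σ : ℝ → Row}
  {act : ℚ → ℝ} {K : Set ℝ} {W : ℝ → ℝ} {v₁ t : ℚ} {e₁ Q₀ P g v₀ a₀ α : ℝ}

/-- **The block of the position is not full**, on large events. -/
theorem dfc_clp5 (hLD : LDOneStmt) (hC : Cs S a R h₁ i₀ c s₂ r D σ)
    (hL : Loc S i₀ c s₂ r D σ act K W v₁ t e₁ Q₀ P g v₀ 0 0 a₀ α) (N M : ℕ) {C ϖ δ : ℝ}
    (hC0 : 0 < C) (hϖ : 0 < ϖ) (hδ : 0 < δ) : ∃ x₁ : ℝ, 0 < x₁ ∧ ∀ x L e G : ℝ, 0 < x → x ≤ x₁ →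
    L ≤ C * x → Zod5 σ act v₁ t e₁ P g (W g) v₀ a₀ α L e G → ∀ u₀ : ℚ, |(u₀ : ℝ) - W g| ≤ L →
    ∃ η₀ : ℝ, 0 < η₀ ∧ ∀ η : ℝ, 0 < η → η ≤ η₀ →
    Clp S (fun J F A => ∀ w₀ X q V H : ℕ, DLv5 J N M P g (W g) v₀ L e u₀ w₀ X q V H →
      x / 2 * J ≤ X → ∀ sg : Fin 3 → Fin 3, Function.Bijective sg → sg 0 = i₀ →
      ∀ (z : F.Ω → Pln) (a s t : F.Ω → ℝ) (E : ℝ),
      NL F A sg ⌊(u₀ : ℝ) * J⌋₊ ⌊((σ 1).rot u₀ - η) * J⌋₊ ⌊((σ 1).th u₀ - η) * J⌋₊ z →
      (∀ ω ω', A ω → A ω' → z ω = z ω' → a ω = a ω' ∧ s ω = s ω' ∧ t ω = t ω') →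
      (∀ ω, A ω → |a ω| ≤ 8 ∧ |s ω| ≤ 8 ∧ |t ω| ≤ 8) → 1 ≤ E → Real.log E ≤ η * J →
      Fcl F A u₀ ((u₀ : ℝ) + (σ 1).rot u₀) ((σ 1).th u₀) E z a s t →
      ∀ j ≤ N, ∀ k ≤ M, ∀ B : F.Ω → Prop, Sub B A → ϖ * Pe F.p A ≤ Pe F.p B →
      CH (Pool.Agent.H49.Ent.cond F.p B True)
        (F.sbx sg (w₀ + j * X + q + k * X + X) (w₀ + j * X + q + V + k * X + X)
          (w₀ + j * X + q + V + H + k * X + X) a s t)
        (fun ω => (F.sbx sg (w₀ + j * X + q + k * X) (w₀ + j * X + q + V + k * X)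
          (w₀ + j * X + q + V + H + k * X) a s t ω, F.W ω)) ≤
        (3 - c) * X * Real.log 2 + δ * X) := by
  have hR := hC.row 1 one_pos le_rfl hC.D1
  have hP0 : 0 < P := by
    have h1 := hL.gP
    have h2 := (hL.pr g hL.thk).half
    linarith
  have hP1 : P < 1 := (hL.pr P hL.row).lt1
  obtain ⟨ε, hε⟩ : ∃ ε, ε = δ / (64 * C) := ⟨_, rfl⟩
  have hε0 : 0 < ε := by rw [hε]; positivity
  obtain ⟨ε₀, X₀, hε₀, hX₀, hld⟩ :=
    hLD S a R h₁ i₀ c s₂ r D σ hC act K W v₁ t e₁ Q₀ P g v₀ 0 0 a₀ α hL ε hε0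
  obtain ⟨X₁, hX₁, hrt⟩ := rte hC hP0 hP1 hL.rate hϖ hε0
  refine ⟨min X₀ X₁ / (4 * C), div_pos (lt_min hX₀ hX₁) (by positivity), ?_⟩
  intro x L e G hx hxx hLx hZ u₀ hu₀
  have hL0 := hZ.L0
  have he0 := hZ.e0
  have heL := hZ.eL
  rw [le_div_iff₀ (by positivity)] at hxx
  obtain ⟨Y, hY⟩ : ∃ Y, Y = 4 * L := ⟨_, rfl⟩
  have hY0 : 0 < Y := by rw [hY]; linarith
  have hYC : Y ≤ min X₀ X₁ := by
    rw [hY]
    linarith
  have hYX₀ : Y ≤ X₀ := hYC.trans (min_le_left _ _)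
  have hYX₁ : Y ≤ X₁ := hYC.trans (min_le_right _ _)
  have hu₀Y : |(u₀ : ℝ) - W g| ≤ Y := by
    rw [hY]
    linarith
  refine ⟨ε₀ * Y, by positivity, fun η hη hηη => ?_⟩
  obtain ⟨J₁, hJ₁⟩ := exists_nat_gt (16 * (K1 8 + K2 8) / (δ * x))
  refine Clp.mono (J₂ := J₁) ((((hld Y hY0 hYX₀ u₀ hu₀Y).ev hϖ).and
    (hrt Y hY0 hYX₁)).and hC.pos) ?_
  rintro J hJ F A ⟨⟨h1, h2⟩, hA0⟩ w₀ X q V H hD hX sg hsg h0 z a' s' t' E hNL hfz hbd hE1 hE2
    hcl j hj k hk B hB hPB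
  have hJr := hD.Jr he0
  have hJ' : 16 * (K1 8 + K2 8) / (δ * x) < J := hJ₁.trans_le (by exact_mod_cast hJ)
  rw [div_lt_iff₀ (by positivity)] at hJ'
  have hB0 : 0 < Pe F.p B := lt_of_lt_of_le (mul_pos hϖ hA0) hPB
  have hlB := isLaw_cond F.isLaw hB0
  -- the numbers at `u₀`
  obtain ⟨n1, n2⟩ := hZ.aff u₀ hu₀
  rw [abs_le] at n1 n2 hu₀
  have hg7 := hZ.g7
  have hg8 := hZ.g8
  have hLG := hZ.LG
  have hur := hD.ur
  have hul := hD.ul
  have hW0 := hZ.g9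
  have hu0 : (0 : ℝ) ≤ u₀ := by linarith
  have hu0' : (0 : ℚ) ≤ u₀ := by exact_mod_cast hu0
  have hu1 : (u₀ : ℝ) ≤ 1 := by
    have := hL.W1
    linarith
  have hu1' : u₀ ≤ 1 := by exact_mod_cast hu1
  have hrot0 : 0 ≤ (σ 1).rot u₀ := num_nonneg hC.ne (hR.rot u₀ hu0' hu1')
  have htrv : (u₀ : ℝ) + (σ 1).rot u₀ ≤ (σ 1).th u₀ := by
    rcases min_le_iff.1 (trv hC le_rfl hR u₀ hu0' hu1) with h | h
    · exact h
    · linarith
  -- the levels
  have hwl := hD.wl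
  have hwu := hD.wu
  have hql := hD.ql
  have hqu := hD.qu
  have hva := hD.va
  have hva' := hD.va'
  have hha := hD.ha
  have heJ := hD.eJ
  have hVH := hD.VH hZ.v0 hZ.R0 he0
  have hVH' := hD.VH'
  have hXr : (0 : ℝ) ≤ X := Nat.cast_nonneg X
  have hjX : ((j : ℝ)) * X ≤ N * X := mul_le_mul_of_nonneg_right (by exact_mod_cast hj) hXr
  have hkX : ((k : ℝ)) * X ≤ M * X := mul_le_mul_of_nonneg_right (by exact_mod_cast hk) hXr
  have hjX0 : 0 ≤ ((j : ℝ)) * X := by positivity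
  have hkX0 : 0 ≤ ((k : ℝ)) * X := by positivity
  have heJL : 100 * (e * J) ≤ L * J := by
    have := mul_le_mul_of_nonneg_right heL hJr.le
    linarith
  push_cast at hwu hqu hVH hVH'
  have hJL : 0 ≤ L * (J : ℝ) := by positivity
  obtain ⟨μ, hμ⟩ : ∃ μ, μ = (σ 1).rot u₀ - V / J := ⟨_, rfl⟩
  have hμJ : μ * J = (σ 1).rot u₀ * J - V := by
    rw [hμ]
    field_simp
  have n1l : v₀ * J - e * J ≤ (σ 1).rot u₀ * J := by
    have := mul_le_mul_of_nonneg_right (show v₀ - e ≤ (σ 1).rot u₀ by linarith [n1.1]) hJr.le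
    linarith
  have n1r : (σ 1).rot u₀ * J ≤ v₀ * J + e * J := by
    have := mul_le_mul_of_nonneg_right (show (σ 1).rot u₀ ≤ v₀ + e by linarith [n1.2]) hJr.le
    linarith
  have hrotJ : 0 ≤ (σ 1).rot u₀ * J := by positivity
  have hμ0 : 0 ≤ μ * J := by
    rw [hμJ]
    rcases le_max_iff.1 hva with h | h <;> linarith
  have hμ1 : μ * J ≤ 5 * (e * J) := by
    rw [hμJ]
    linarith
  have hRR : (V : ℝ) + H ≤ (σ 1).th u₀ * J - u₀ * J - μ * J := by
    rw [hμJ]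
    have m1 : (u₀ : ℝ) * J + (σ 1).rot u₀ * J ≤ (σ 1).th u₀ * J := by
      have := mul_le_mul_of_nonneg_right htrv hJr.le
      linarith
    have m2 : (g - W g - e) * J ≤ (σ 1).th u₀ * J - u₀ * J := by
      have := mul_le_mul_of_nonneg_right
        (show g - W g - e ≤ (σ 1).th u₀ - u₀ by linarith [n2.1]) hJr.le
      linarith
    rcases le_max_iff.1 hha with h | h
    · have : (H : ℝ) = 0 := le_antisymm h (Nat.cast_nonneg H)
      linarith
    · linarith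
  obtain ⟨r', hr'⟩ : ∃ r' : ℕ, r' = w₀ + j * X + q + k * X + X := ⟨_, rfl⟩
  have hr'r : (r' : ℝ) = w₀ + j * X + q + k * X + X := by
    rw [hr']
    push_cast
    ring
  have hUe : w₀ + j * X + q + V + k * X + X = r' + V := by
    rw [hr']
    ring
  have hPe' : w₀ + j * X + q + V + H + k * X + X = r' + V + H := by
    rw [hr']
    ring
  obtain ⟨q', hq'⟩ : ∃ q' : ℝ, q' = r' / J - u₀ - μ := ⟨_, rfl⟩
  have hq'J : q' * J = r' - u₀ * J - μ * J := by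
    rw [hq']
    field_simp
  have hulJ : W g * J - L / 2 * J ≤ u₀ * J := by
    have := mul_le_mul_of_nonneg_right hul hJr.le
    linarith
  have hurJ : u₀ * J ≤ W g * J := mul_le_mul_of_nonneg_right hur hJr.le
  -- the deficit
  have k1 := h1 B hB hPB sg hsg h0 z
    ((show NL F B sg ⌊(u₀ : ℝ) * J⌋₊ ⌊((σ 1).rot u₀ - η) * J⌋₊ ⌊((σ 1).th u₀ - η) * J⌋₊ z from
      ⟨fun ω hω => hNL.inc ω (hB ω hω), fun ω ω' x y => hNL.vis ω ω' (hB ω x) (hB ω' y),
        fun ω ω' x y => hNL.con ω ω' (hB ω x) (hB ω' y)⟩).mono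
      (Nat.floor_le_floor (mul_le_mul_of_nonneg_right (by linarith) hJr.le))
      (Nat.floor_le_floor (mul_le_mul_of_nonneg_right (by linarith) hJr.le)))
    a' s' t' E (fun ω ω' x y => hfz ω ω' (hB ω x) (hB ω' y)) (fun ω x => hbd ω (hB ω x)) hE1
    (hE2.trans (mul_le_mul_of_nonneg_right hηη hJr.le)) (fun ω x => hcl ω (hB ω x)) r' (r' + V)
    (r' + V + H) q' (by
      rw [abs_le]
      constructor
      · refine le_of_mul_le_mul_right ?_ hJr
        have e1 : (q' - (P - g)) * J = q' * J - (P - g) * J := by ring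
        rw [e1, hq'J, hr'r, hY]
        linarith
      · refine le_of_mul_le_mul_right ?_ hJr
        have e1 : (q' - (P - g)) * J = q' * J - (P - g) * J := by ring
        rw [e1, hq'J, hr'r, hY]
        linarith) (by
      have e1 : ((u₀ : ℝ) + q') * J = u₀ * J + q' * J := by ring
      rw [e1, hq'J]
      linarith) (by
      have e1 : ((u₀ : ℝ) + (σ 1).rot u₀ + q') * J = u₀ * J + (σ 1).rot u₀ * J + q' * J := by ring
      rw [e1, hq'J, hμJ]
      push_cast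
      linarith) (by
      have e1 : ((σ 1).th u₀ + q') * J = (σ 1).th u₀ * J + q' * J := by ring
      rw [e1, hq'J]
      push_cast
      linarith) (by omega) (by omega)
  -- the positions
  have k2 := h2 B hB hPB (w₀ + j * X + q + V + H + k * X) (w₀ + j * X + q + V + H + k * X + X)
    (by omega) (by
      rw [abs_le, hY]
      push_cast
      constructor <;> linarith) (by
      rw [abs_le, hY]
      push_cast
      constructor <;> linarith)
  have k3 := block_le (σ := sg) (a := a') (s := s') (t := t') (F := F) hlB hsg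
    (r := w₀ + j * X + q + k * X) (U := w₀ + j * X + q + V + k * X)
    (P := w₀ + j * X + q + V + H + k * X) (r' := w₀ + j * X + q + k * X + X)
    (U' := w₀ + j * X + q + V + k * X + X) (P' := w₀ + j * X + q + V + H + k * X + X)
    (B := 8) (by norm_num) (by omega) (by omega) (by omega) (by omega) (by omega) (by omega)
    (by omega) (fun ω hω => hbd ω (hB ω (ldm_mem hω))) F.W
  rw [← hr', hUe, hPe'] at k3
  rw [hPe'] at k2
  have e2 : (((r' : ℝ) - ((w₀ + j * X + q + k * X : ℕ) : ℝ)) + (((r' + V : ℕ) : ℝ) -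
      ((w₀ + j * X + q + V + k * X : ℕ) : ℝ)) - 2 * (((r' + V + H : ℕ) : ℝ) -
      ((w₀ + j * X + q + V + H + k * X : ℕ) : ℝ))) * Real.log 2 = 0 := by
    rw [hr']
    push_cast
    ring
  rw [e2] at k3
  have e3 : (3 - c) * (((r' + V + H : ℕ) : ℝ) - ((w₀ + j * X + q + V + H + k * X : ℕ) : ℝ)) *
      Real.log 2 = (3 - c) * X * Real.log 2 := by
    rw [hr']
    push_cast
    ring
  rw [e3] at k2
  have e4 : ε * Y * J ≤ δ / 8 * X := by
    have m1 : ε * Y * J ≤ ε * (4 * (C * x)) * J := by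
      refine mul_le_mul_of_nonneg_right (mul_le_mul_of_nonneg_left ?_ hε0.le) hJr.le
      rw [hY]
      linarith
    have m2 : ε * (4 * (C * x)) * J = δ / 8 * (x / 2 * J) := by
      rw [hε]
      field_simp
      ring
    rw [m2] at m1
    exact m1.trans (mul_le_mul_of_nonneg_left hX (by positivity))
  have e5 : K1 8 + K2 8 ≤ δ / 8 * X := by
    have m1 : δ / 8 * (x / 2 * J) ≤ δ / 8 * X := mul_le_mul_of_nonneg_left hX (by positivity)
    linarith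
  have e6 : 0 ≤ δ * (X : ℝ) := by positivity
  rw [← hr', hUe, hPe']
  linarith

end Pool.S6C
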