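import Pool.Agent.H35.DPC.Row
import Pool.Agent.H99.DPC.Frm

/-!
# The double plateau: the frames, with the row of the position

`dfr_thm : DFrStmt`, from LEMMA D at one window.
-/

set_option autoImplicit false

namespace Pool.S6C

open Finset Real
open Pool.Agent.H49.Ent Pool.Agent.H32.Dense Pool.STK Pool.KA Pool.KSAT Pool.K2S Pool.PB Pool.KS6
  Pool.Sel51

/-- **The frames of the double plateau.** -/
theorem dfr_thm (hLD : LDOneStmt) : DFrStmt := by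
  intro S a R h₁ i₀ c s₂ r D σ hC act K W v₁ t e₁ Q₀ P g v₀ a₀ α hL N M ϖ ε hϖ hε
  have hc : 0 < c := hC.c0
  have hlog : 0 < Real.log 2 := Real.log_pos (by norm_num)
  obtain ⟨L₀, hL₀, hrow⟩ := dfc_of hLD hC hL hϖ hε (δ := c / 2 * Real.log 2) (by positivity)
  refine ⟨1, L₀, one_pos, hL₀, fun rc pe x L e G hLL heL hxL hZ u₀ hul hur => ?_⟩
  obtain ⟨η₁, hη₁, k1⟩ := hrow rc pe x L e G hLL hxL hZ u₀ hul hur
  obtain ⟨η₂, hη₂, k2⟩ := dfr_frames hC hL hZ hul hur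
  have hη : 0 < min η₁ η₂ := lt_min hη₁ hη₂
  refine Clp.mono (J₂ := 1) ((k1 _ hη (min_le_left _ _) N M).and
    (k2 _ hη (min_le_right _ _) N M x)) ?_
  rintro J - F A ⟨h1, h2⟩ w₀ q V H X hD
  obtain ⟨sg, a', s', t', al, nu, kk, bb, hs0, hfr, hor⟩ := h2 w₀ q V H X hD
  refine ⟨sg, a', s', t', al, nu, kk, bb, hs0, hfr, fun j hj k hk E hE hPE => ?_⟩
  have h3 := h1 w₀ q V H X hD sg hfr.bij hs0 a' s' t' (fun ω hω => by
    obtain ⟨b1, b2, b3⟩ := hfr.bd ω hω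
    exact ⟨by linarith, by linarith, b3⟩) (by
    rcases hor with h | ⟨-, h, h', -⟩
    · exact Or.inl h
    · exact Or.inr ⟨h, h'⟩) j hj k hk E hE hPE
  refine h3.trans (le_of_eq ?_)
  ring

end Pool.S6C
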