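import Pool.Agent.H33.S6.Zof

/-!
# The double plateau: the zone and the integer levels

`Zod5`: the numbers `rot` and `th - w` of the class are constant up to `e` in a zone of half-width
`L` around the window `wr = W g`, `act` is affine around `P - g`, with room in all strict
inequalities. `rot` and the difference `th - w - rot` may vanish. `DLv5`: the integer levels of the
contexts; `u₀` is the window of the label which gives the frame.
-/

set_option autoImplicit false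

namespace Pool.S6C

open Finset Real
open Pool.Agent.H49.Ent Pool.Agent.H32.Dense Pool.STK Pool.KA Pool.KSAT Pool.K2S Pool.PB Pool.KS6
  Pool.Sel51

/-- **The zone of the double plateau.** -/
structure Zod5 (σ : ℝ → Row) (act : ℚ → ℝ) (v₁ t : ℚ) (e₁ P g wr v₀ a₀ α L e G : ℝ) :
    Prop where
  α0 : 0 < α
  e0 : 0 < e
  eL : 100 * e ≤ L
  LG : 10 * L ≤ G
  v0 : 0 ≤ v₀
  /-- the planks are at least as thick as the trivial ones -/
  R0 : v₀ ≤ g - wr
  /-- the numbers are constant near the window -/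
  aff : ∀ q : ℚ, |(q : ℝ) - wr| ≤ L → |(σ 1).rot q - v₀| ≤ e ∧ |(σ 1).th q - g - (q - wr)| ≤ e
  act : ∀ q : ℚ, |(q : ℝ) - (P - g)| ≤ L → |act q - a₀ - α * (q - (P - g))| ≤ e
  /-- room -/
  g1 : (P - g) + v₀ + G < (σ 1).pi
  g2 : (P - g) + v₀ + G < 1
  g3 : P - wr + G < (σ 1).sN v₁ t
  g4 : P - wr + G < t - v₁ + e₁
  g5 : P - g + G < e₁
  g6 : wr + G < v₁
  g7 : P + G < 1
  g8 : G < P - g
  g9 : G < wr

/-- **The integer levels.** The windows are `w₀ + j X`, the base velocities `q + k X`; the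
precisions are `V` of the direction and `V + H` of the normal form. -/
structure DLv5 (J N M : ℕ) (P g wr v₀ L e : ℝ) (u₀ : ℚ) (w₀ X q V H : ℕ) : Prop where
  ul : wr - L / 2 ≤ u₀
  ur : (u₀ : ℝ) ≤ wr
  eJ : 2 ≤ e * J
  wl : (u₀ : ℝ) * J + e * J ≤ w₀
  wu : ((w₀ + (N + 1) * X : ℕ) : ℝ) ≤ (wr + L / 2) * J
  ql : (P - g - L / 2) * J ≤ q
  qu : ((q + (M + 2) * X : ℕ) : ℝ) ≤ (P - g + L / 2) * J
  va : (V : ℝ) ≤ max 0 ((v₀ - 3 * e) * J)
  va' : (v₀ - 3 * e) * J - 1 ≤ V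
  ha : (H : ℝ) ≤ max 0 ((g - wr - v₀ - 3 * e) * J)
  ha' : (g - wr - v₀ - 3 * e) * J - 1 ≤ H

section zone

variable {σ : ℝ → Row} {act : ℚ → ℝ} {v₁ t : ℚ} {e₁ P g wr v₀ a₀ α L e G : ℝ}

theorem Zod5.L0 (h : Zod5 σ act v₁ t e₁ P g wr v₀ a₀ α L e G) : 0 < L := by
  have h1 := h.e0
  have h2 := h.eL
  linarith

theorem Zod5.G0 (h : Zod5 σ act v₁ t e₁ P g wr v₀ a₀ α L e G) : 0 < G := by
  have h1 := h.L0
  have h2 := h.LG
  linarith

variable {J N M w₀ X q V H : ℕ} {u₀ : ℚ}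

theorem DLv5.Jr (hz : 0 < e) (h : DLv5 J N M P g wr v₀ L e u₀ w₀ X q V H) : (0 : ℝ) < J := by
  have h1 := h.eJ
  rcases (Nat.cast_nonneg (α := ℝ) J).eq_or_lt with h2 | h2
  · rw [← h2] at h1
    linarith
  · exact h2

/-- The window of the frame is at most all windows. -/
theorem DLv5.uw (hz : 0 < e) (h : DLv5 J N M P g wr v₀ L e u₀ w₀ X q V H) :
    ⌊(u₀ : ℝ) * J⌋₊ ≤ w₀ := by
  have h1 := h.wl
  have h2 := h.eJ
  refine Nat.floor_le_of_le ?_
  linarith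

/-- The direction is known to fewer digits. -/
theorem DLv5.Vv (h : DLv5 J N M P g wr v₀ L e u₀ w₀ X q V H) (hv : 0 ≤ v₀) (he : 0 < e) :
    (V : ℝ) ≤ v₀ * J := by
  refine h.va.trans (max_le (by positivity) ?_)
  have : 0 ≤ 3 * e * (J : ℝ) := by positivity
  linarith

/-- The normal form is known to fewer digits. -/
theorem DLv5.VH (h : DLv5 J N M P g wr v₀ L e u₀ w₀ X q V H) (hv : 0 ≤ v₀) (hR : v₀ ≤ g - wr)
    (he : 0 < e) : ((V + H : ℕ) : ℝ) ≤ (g - wr) * J ∧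
      (((V + H : ℕ) : ℝ) ≤ (g - wr - 3 * e) * J ∨ V = 0 ∧ H = 0) := by
  have hJ : (0 : ℝ) ≤ J := Nat.cast_nonneg J
  have h1 := h.va
  have h2 := h.ha
  have h3 : 0 ≤ e * (J : ℝ) := by positivity
  have h4 : 0 ≤ v₀ * (J : ℝ) := by positivity
  have h5 : v₀ * (J : ℝ) ≤ (g - wr) * J := mul_le_mul_of_nonneg_right hR hJ
  push_cast
  rcases le_max_iff.1 h1 with a | a <;> rcases le_max_iff.1 h2 with b | b
  · have a' : V = 0 := by
      have : (V : ℝ) = 0 := le_antisymm a (Nat.cast_nonneg V)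
      exact_mod_cast this
    have b' : H = 0 := by
      have : (H : ℝ) = 0 := le_antisymm b (Nat.cast_nonneg H)
      exact_mod_cast this
    refine ⟨?_, Or.inr ⟨a', b'⟩⟩
    rw [a', b']
    push_cast
    linarith
  · exact ⟨by linarith, Or.inl (by linarith)⟩
  · exact ⟨by linarith, Or.inl (by linarith)⟩
  · exact ⟨by linarith, Or.inl (by linarith)⟩

/-- The normal forms are not known to more digits. -/
theorem DLv5.VH' (h : DLv5 J N M P g wr v₀ L e u₀ w₀ X q V H) :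
    (g - wr - 6 * e) * J - 2 ≤ ((V + H : ℕ) : ℝ) := by
  have h1 := h.va'
  have h2 := h.ha'
  push_cast
  linarith

end zone

/-- **The integer levels exist.** -/
theorem dlv_mk (N M : ℕ) {P g wr v₀ L e x : ℝ} {u₀ : ℚ} (he : 0 < e) (hx : 0 < x)
    (hul : wr - L / 2 ≤ u₀) (hur : (u₀ : ℝ) + 2 * e ≤ wr) (hwr : 0 < wr) (hPg : 0 < P - g)
    (hL : (N + M + 3) * x + 2 * e ≤ L / 2) : ∃ J₁ : ℕ, ∀ J ≥ J₁,
      DLv5 J N M P g wr v₀ L e u₀ ⌊wr * J⌋₊ ⌊x * J⌋₊ ⌊(P - g) * J⌋₊ ⌊(v₀ - 3 * e) * J⌋₊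
        ⌊(g - wr - v₀ - 3 * e) * J⌋₊ := by
  obtain ⟨J₁, hJ₁⟩ := exists_nat_gt (2 / e)
  refine ⟨J₁, fun J hJ => ?_⟩
  have h1 : 2 / e < J := hJ₁.trans_le (by exact_mod_cast hJ)
  rw [div_lt_iff₀ he] at h1
  have hJr : (0 : ℝ) < J := by
    rcases (Nat.cast_nonneg (α := ℝ) J).eq_or_lt with h2 | h2
    · rw [← h2] at h1
      linarith
    · exact h2
  have hX : ((⌊x * (J : ℝ)⌋₊ : ℕ) : ℝ) ≤ x * J := Nat.floor_le (by positivity)
  have hX0 : (0 : ℝ) ≤ ((⌊x * (J : ℝ)⌋₊ : ℕ) : ℝ) := Nat.cast_nonneg _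
  have hw1 : ((⌊wr * (J : ℝ)⌋₊ : ℕ) : ℝ) ≤ wr * J := Nat.floor_le (by positivity)
  have hw2 : wr * J < ⌊wr * (J : ℝ)⌋₊ + 1 := Nat.lt_floor_add_one _
  have hq1 : ((⌊(P - g) * (J : ℝ)⌋₊ : ℕ) : ℝ) ≤ (P - g) * J := Nat.floor_le (by positivity)
  have hq2 : (P - g) * J < ⌊(P - g) * (J : ℝ)⌋₊ + 1 := Nat.lt_floor_add_one _
  have hLJ := mul_le_mul_of_nonneg_right hL hJr.le
  have hNX : ((N : ℝ) + 1) * ((⌊x * (J : ℝ)⌋₊ : ℕ) : ℝ) ≤ (N + 1) * (x * J) :=
    mul_le_mul_of_nonneg_left hX (by positivity)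
  have hMX : ((M : ℝ) + 2) * ((⌊x * (J : ℝ)⌋₊ : ℕ) : ℝ) ≤ (M + 2) * (x * J) :=
    mul_le_mul_of_nonneg_left hX (by positivity)
  have hxJ : 0 ≤ x * (J : ℝ) := by positivity
  have hN0 : (0 : ℝ) ≤ N * (x * J) := by positivity
  have hM0 : (0 : ℝ) ≤ M * (x * J) := by positivity
  have heJ : 0 ≤ e * (J : ℝ) := by positivity
  have hurJ := mul_le_mul_of_nonneg_right hur hJr.le
  refine ⟨hul, by linarith, by linarith, by linarith, ?_, ?_, ?_, ?_, ?_, ?_, ?_⟩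
  · push_cast
    linarith
  · linarith
  · push_cast
    linarith
  · rcases le_or_gt 0 ((v₀ - 3 * e) * (J : ℝ)) with h | h
    · exact (Nat.floor_le h).trans (le_max_right _ _)
    · rw [Nat.floor_of_nonpos h.le]
      exact (le_of_eq Nat.cast_zero).trans (le_max_left _ _)
  · have := Nat.lt_floor_add_one ((v₀ - 3 * e) * (J : ℝ))
    linarith
  · rcases le_or_gt 0 ((g - wr - v₀ - 3 * e) * (J : ℝ)) with h | h
    · exact (Nat.floor_le h).trans (le_max_right _ _)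
    · rw [Nat.floor_of_nonpos h.le]
      exact (le_of_eq Nat.cast_zero).trans (le_max_left _ _)
  · have := Nat.lt_floor_add_one ((g - wr - v₀ - 3 * e) * (J : ℝ))
    linarith

section loc

variable {S : PCl 3} {a R h₁ : ℝ} {i₀ : Fin 3} {c s₂ : ℝ} {r : ℝ → ℝ} {D : Set ℝ} {σ : ℝ → Row}
  {act : ℚ → ℝ} {K : Set ℝ} {W : ℝ → ℝ} {v₁ t : ℚ} {e₁ Q₀ P g v₀ v ρ a₀ α : ℝ}

/-- Near the window. -/
theorem Loc.near (hL : Loc S i₀ c s₂ r D σ act K W v₁ t e₁ Q₀ P g v₀ v ρ a₀ α) {e : ℝ}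
    (he : 0 < e) : ∃ q : ℚ, W g < q ∧ (q : ℝ) < 1 ∧ (q : ℝ) - W g < e ∧ |(σ 1).rot q - v₀| < e ∧
      |(σ 1).th q - g| < e := by
  have hW1 := hL.W1
  have hv := hL.v0
  have hρ := hL.ρ0
  obtain ⟨δ₁, hδ₁, h1⟩ := hL.rot 1 one_pos
  obtain ⟨δ₂, hδ₂, h2⟩ := hL.th 1 one_pos
  obtain ⟨e', he'⟩ : ∃ e', e' = e / (3 * (2 + v + ρ)) := ⟨_, rfl⟩
  have he'0 : 0 < e' := by rw [he']; positivity
  have he'1 : 3 * (2 + v + ρ) * e' = e := by
    rw [he']
    field_simp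
  obtain ⟨δ, hδ⟩ : ∃ δ : ℝ, δ = min (min δ₁ δ₂) (min (1 - W g) e') := ⟨_, rfl⟩
  have hδ0 : 0 < δ := by
    rw [hδ]
    exact lt_min (lt_min hδ₁ hδ₂) (lt_min (by linarith) he'0)
  have d1 : δ ≤ δ₁ := by rw [hδ]; exact (min_le_left _ _).trans (min_le_left _ _)
  have d2 : δ ≤ δ₂ := by rw [hδ]; exact (min_le_left _ _).trans (min_le_right _ _)
  have d3 : δ ≤ 1 - W g := by rw [hδ]; exact (min_le_right _ _).trans (min_le_left _ _)
  have d4 : δ ≤ e' := by rw [hδ]; exact (min_le_right _ _).trans (min_le_right _ _)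
  obtain ⟨q, q1, q2⟩ := exists_rat_btwn (show W g < W g + δ by linarith)
  have hab : |(q : ℝ) - W g| = q - W g := abs_of_pos (by linarith)
  have a1 := h1 q (by rw [hab]; linarith)
  have a2 := h2 q (by rw [hab]; linarith)
  rw [hab] at a1 a2
  have hq : (q : ℝ) - W g < e' := by linarith
  have hq0 : 0 < (q : ℝ) - W g := by linarith
  rw [abs_le] at a1 a2
  have b1 : v * ((q : ℝ) - W g) ≤ v * e' := mul_le_mul_of_nonneg_left hq.le hv
  have b2 : ρ * ((q : ℝ) - W g) ≤ ρ * e' := mul_le_mul_of_nonneg_left hq.le hρ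
  have b3 : 0 ≤ v * ((q : ℝ) - W g) := mul_nonneg hv hq0.le
  have b4 : 0 ≤ ρ * ((q : ℝ) - W g) := mul_nonneg hρ hq0.le
  have b5 : 0 ≤ v * e' := by positivity
  have b6 : 0 ≤ ρ * e' := by positivity
  refine ⟨q, q1, by linarith, by linarith, ?_, ?_⟩
  · rw [abs_lt]
    constructor <;> linarith [a1.1, a1.2]
  · rw [abs_lt]
    constructor <;> linarith [a2.1, a2.2]

/-- The value of the directions is nonnegative. -/
theorem Loc.v0_nn (hC : Cs S a R h₁ i₀ c s₂ r D σ)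
    (hL : Loc S i₀ c s₂ r D σ act K W v₁ t e₁ Q₀ P g v₀ v ρ a₀ α) : 0 ≤ v₀ := by
  refine le_of_forall_pos_le_add fun e he => ?_
  obtain ⟨q, q1, q2, q3, q4, q5⟩ := hL.near he
  have hR := hC.row 1 one_pos le_rfl hC.D1
  have h0 := hL.w0
  have h3 : 0 ≤ (σ 1).rot q := num_nonneg hC.ne (hR.rot q (by
    have : (0 : ℝ) ≤ q := by linarith
    exact_mod_cast this) (by exact_mod_cast q2.le))
  rw [abs_lt] at q4
  linarith [q4.2]

/-- The planks are at least as thick as the trivial ones. -/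
theorem Loc.v0_leR (hC : Cs S a R h₁ i₀ c s₂ r D σ)
    (hL : Loc S i₀ c s₂ r D σ act K W v₁ t e₁ Q₀ P g v₀ v ρ a₀ α) : v₀ ≤ g - W g := by
  have hg1 : g < 1 := (hL.pr g hL.thk).lt1
  refine le_of_forall_pos_le_add fun e he => ?_
  obtain ⟨q, q1, q2, q3, q4, q5⟩ := hL.near (e := min (e / 3) (1 - g))
    (lt_min (by linarith) (by linarith))
  have h1 : min (e / 3) (1 - g) ≤ e / 3 := min_le_left _ _
  have h2 : min (e / 3) (1 - g) ≤ 1 - g := min_le_right _ _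
  have hR := hC.row 1 one_pos le_rfl hC.D1
  have h0 := hL.w0
  have h3 := trv hC le_rfl hR q (by
    have : (0 : ℝ) ≤ q := by linarith
    exact_mod_cast this) q2.le
  rw [abs_lt] at q4 q5
  rcases min_le_iff.1 h3 with h | h
  · linarith [q4.1, q5.2]
  · linarith [q5.2]

/-- **The room in the inequalities of the local data**, for all slopes. -/
theorem Loc.room_eq (hC : Cs S a R h₁ i₀ c s₂ r D σ)
    (hL : Loc S i₀ c s₂ r D σ act K W v₁ t e₁ Q₀ P g v₀ v ρ a₀ α) :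
    ∃ G₀ : ℝ, 0 < G₀ ∧ ∀ G : ℝ, G ≤ G₀ → (P - g) + v₀ + G < (σ 1).pi ∧ (P - g) + v₀ + G < 1 ∧
      P - W g + G < (σ 1).sN v₁ t ∧ P - W g + G < t - v₁ + e₁ ∧ P - g + G < e₁ ∧
      W g + G < v₁ ∧ P + G < 1 ∧ G < P - g ∧ G < W g ∧ v₀ + G < 1 := by
  obtain ⟨w₁, b1, b2, -, b3⟩ := hL.beta
  have hWP : W g ≤ W P := (hL.mono g hL.thk P hL.row hL.gP.le).1
  have hw₁ : w₁ ≤ 1 := by
    have h1 := hL.adm.ab Q₀ hL.top
    have h2 : (v₁ : ℝ) < 1 := by exact_mod_cast hL.adm.v1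
    have h3 : (w₁ : ℝ) ≤ 1 := by linarith
    exact_mod_cast h3
  have h1 := hL.v0_le hC (by linarith) hw₁
  have hpi : (σ 1).pi ≤ 1 := num_le_cap hC.ne zero_le_one (hC.row 1 one_pos le_rfl hC.D1).pi
  have h2 := hL.gP
  have h3 := hL.gam
  have h4 := hL.vel
  have h5 := hL.small
  have h6 := hL.adm.ab g hL.thk
  have h7 := (hL.pr P hL.row).lt1
  have h8 := hL.w0
  obtain ⟨G₀, hG₀, hall⟩ := exists_room [(σ 1).pi - ((P - g) + v₀),
    (σ 1).sN v₁ t - (P - W g), t - v₁ + e₁ - (P - W g), e₁ - (P - g), v₁ - W g, 1 - P, P - g,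
    W g] (by
    intro x hx
    simp only [List.mem_cons, List.not_mem_nil, or_false] at hx
    rcases hx with h | h | h | h | h | h | h | h
    · rw [h]; linarith
    · rw [h]; linarith
    · rw [h]; linarith
    · rw [h]; linarith
    · rw [h]; linarith
    · rw [h]; linarith
    · rw [h]; linarith
    · rw [h]; linarith)
  refine ⟨G₀, hG₀, fun G hG => ?_⟩
  simp only [List.mem_cons, List.not_mem_nil, or_false, forall_eq_or_imp, forall_eq] at hall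
  obtain ⟨a1, a2, a3, a4, a5, a6, a7, a8⟩ := hall
  exact ⟨by linarith, by linarith, by linarith, by linarith, by linarith, by linarith,
    by linarith, by linarith, by linarith, by linarith⟩

/-- **The zone of the double plateau.** -/
theorem zod_of_loc (hC : Cs S a R h₁ i₀ c s₂ r D σ)
    (hL : Loc S i₀ c s₂ r D σ act K W v₁ t e₁ Q₀ P g v₀ 0 0 a₀ α)
    {C ε : ℝ} (hC0 : 0 < C) (hε : 0 < ε) (hCε : 100 * ε ≤ C) : ∃ x₁ : ℝ, 0 < x₁ ∧
      ∀ x : ℝ, 0 < x → x ≤ x₁ → Zod5 σ act v₁ t e₁ P g (W g) v₀ a₀ α (C * x) (ε * x)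
        (10 * (C * x)) := by
  obtain ⟨G₀, hG₀, hroom⟩ := hL.room_eq hC
  obtain ⟨δ₁, hδ₁, h1⟩ := hL.rot (ε / C) (by positivity)
  obtain ⟨δ₂, hδ₂, h2⟩ := hL.th (ε / C) (by positivity)
  obtain ⟨δ₃, hδ₃, h3⟩ := hL.aslp (ε / C) (by positivity)
  obtain ⟨x₁, hx₁, hall⟩ := exists_room [δ₁ / C, δ₂ / C, δ₃ / C, G₀ / (10 * C)] (by
    intro x hx
    simp only [List.mem_cons, List.not_mem_nil, or_false] at hx
    rcases hx with h | h | h | h <;> · rw [h]; positivity)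
  simp only [List.mem_cons, List.not_mem_nil, or_false, forall_eq_or_imp, forall_eq] at hall
  obtain ⟨b1, b2, b3, b4⟩ := hall
  rw [lt_div_iff₀ hC0] at b1 b2 b3
  rw [lt_div_iff₀ (by positivity)] at b4
  refine ⟨x₁, hx₁, fun x hx hxx => ?_⟩
  have hCx : C * x ≤ x₁ * C := by nlinarith
  have hG : 10 * (C * x) ≤ G₀ := by linarith
  obtain ⟨r1, r2, r3, r4, r5, r6, r7, r8, r9, -⟩ := hroom _ hG
  have hsc : ∀ y : ℝ, |y| ≤ C * x → ε / C * |y| ≤ ε * x := by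
    intro y hy
    calc ε / C * |y| ≤ ε / C * (C * x) := mul_le_mul_of_nonneg_left hy (by positivity)
      _ = ε * x := by field_simp
  exact
    { α0 := hL.α0
      e0 := by positivity
      eL := by nlinarith
      LG := le_rfl
      v0 := hL.v0_nn hC
      R0 := hL.v0_leR hC
      aff := fun q hq => by
        have k1 := (h1 q (by linarith)).trans (hsc _ hq)
        have k2 := (h2 q (by linarith)).trans (hsc _ hq)
        rw [zero_mul, sub_zero] at k1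
        rw [add_zero, one_mul] at k2
        exact ⟨k1, k2⟩
      act := fun q hq => (h3 q (by linarith)).trans (hsc _ hq)
      g1 := r1
      g2 := r2
      g3 := r3
      g4 := r4
      g5 := r5
      g6 := r6
      g7 := r7
      g8 := r8
      g9 := r9 }

end loc

end Pool.S6C
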